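import Mathlib

/-!
# MP_891d15_co, Q1 is false: `D_{e_2}^{(2)}(Z_p) ≥ p + 2` for every prime `p ≡ 73 (mod 3640)`

The sequence made of `p - 3` copies of `1` and four copies of `3/2` is 2-zero free as soon as
`7`, `10` and `13` are non-squares modulo `p`. This is the case for `p = 73` and for every prime
`p ≡ 73 (mod 3640)`; all these primes are `≡ 1 (mod 4)`.
-/

namespace Pool.Agent.Results.MP_891d15_co.TwoZeroSeventyThree

open Finset

/-- The second elementary symmetric value of the subsequence `(s_i)_{i ∈ I}`. -/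
def e2 {n l : ℕ} (s : Fin l → ZMod n) (I : Finset (Fin l)) : ZMod n :=
  ∑ i ∈ I, ∑ j ∈ I.filter (fun j => i < j), s i * s j

/-- Every sequence of length `l` over `Z_n` has a 2-zero subsequence (at least two terms and
`e_2 = 0`). -/
def HasTwoZero (n l : ℕ) : Prop :=
  ∀ s : Fin l → ZMod n, ∃ I : Finset (Fin l), 2 ≤ I.card ∧ e2 s I = 0

/-- The constant `D_{e_2}^{(2)}(Z_n)`: the least `l` such that every sequence of length `l` over
`Z_n` has a 2-zero subsequence. -/
noncomputable def D (n : ℕ) : ℕ := sInf {l | HasTwoZero n l}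

lemma two_mul_e2 {n l : ℕ} (s : Fin l → ZMod n) (I : Finset (Fin l)) :
    2 * e2 s I = (∑ i ∈ I, s i) ^ 2 - ∑ i ∈ I, s i ^ 2 := by
  induction I using Finset.induction_on_max with
  | empty => simp [e2]
  | insert a I ha ih =>
    have hna : a ∉ I := fun h => lt_irrefl _ (ha a h)
    have h1 : (insert a I).filter (fun j => a < j) = ∅ := by
      ext j
      simp only [mem_filter, mem_insert, notMem_empty, iff_false, not_and, not_lt]
      rintro (h | h)
      · exact h.le
      · exact (ha j h).le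
    have h2 : ∀ i ∈ I, (insert a I).filter (fun j => i < j) =
        insert a (I.filter (fun j => i < j)) := by
      intro i hi
      rw [filter_insert, if_pos (ha i hi)]
    have h3 : e2 s (insert a I) = e2 s I + (∑ i ∈ I, s i) * s a := by
      unfold e2
      rw [sum_insert hna, h1, sum_empty, zero_add, sum_mul, ← sum_add_distrib]
      apply sum_congr rfl
      intro i hi
      rw [h2 i hi, sum_insert (by simp [hna])]
      ring
    rw [h3, mul_add, ih, sum_insert hna, sum_insert hna]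
    ring

lemma mono {n l l' : ℕ} (hl : l ≤ l') (h : HasTwoZero n l) : HasTwoZero n l' := by
  intro s
  obtain ⟨I, hI, he⟩ := h (fun i => s (Fin.castLE hl i))
  refine ⟨I.map (Fin.castLEEmb hl), by rwa [card_map], ?_⟩
  rw [← he]
  unfold e2
  rw [sum_map]
  apply sum_congr rfl
  intro i _
  rw [filter_map, sum_map]
  rfl

lemma nonempty {p : ℕ} (hp : p.Prime) (h2 : p ≠ 2) : HasTwoZero p (p * p) := by
  have : Fact p.Prime := ⟨hp⟩
  intro s
  obtain ⟨v, -, hv⟩ := exists_le_card_fiber_of_mul_le_card_of_maps_to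
    (s := (univ : Finset (Fin (p * p)))) (t := (univ : Finset (ZMod p))) (f := s) (n := p)
    (fun _ _ => mem_univ _) ⟨0, mem_univ _⟩ (by simp [ZMod.card])
  obtain ⟨I, hI, hc⟩ := exists_subset_card_eq hv
  refine ⟨I, by rw [hc]; exact hp.two_le, ?_⟩
  have hs : ∀ i ∈ I, s i = v := fun i hi => (mem_filter.1 (hI hi)).2
  have h := two_mul_e2 s I
  rw [sum_congr rfl hs, sum_congr rfl (fun i hi => by rw [hs i hi] : ∀ i ∈ I, s i ^ 2 = v ^ 2)] at h
  simp only [sum_const, hc, nsmul_eq_mul, CharP.cast_eq_zero, zero_mul] at h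
  have h20 : (2 : ZMod p) ≠ 0 := by
    intro h0
    have : ((2 : ℕ) : ZMod p) = 0 := by exact_mod_cast h0
    rw [ZMod.natCast_eq_zero_iff] at this
    exact h2 ((Nat.prime_dvd_prime_iff_eq hp Nat.prime_two).1 this)
  have h' : (2 : ZMod p) * e2 s I = 0 := by rw [h]; ring
  exact (mul_eq_zero.1 h').resolve_left h20

/-- The construction. -/
lemma not_hasTwoZero {p : ℕ} (hp : p.Prime) (h13 : 13 < p)
    (n7 : ¬ IsSquare (7 : ZMod p)) (n10 : ¬ IsSquare (10 : ZMod p))
    (n13 : ¬ IsSquare (13 : ZMod p)) : ¬ HasTwoZero p (p + 1) := by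
  have : Fact p.Prime := ⟨hp⟩
  intro h
  have h20 : (2 : ZMod p) ≠ 0 := by
    intro h0
    have : ((2 : ℕ) : ZMod p) = 0 := by exact_mod_cast h0
    rw [ZMod.natCast_eq_zero_iff] at this
    exact absurd (Nat.le_of_dvd (by norm_num) this) (by omega)
  obtain ⟨t, ht⟩ : ∃ t : ZMod p, 2 * t = 3 := ⟨2⁻¹ * 3, by field_simp⟩
  let s : Fin (p + 1) → ZMod p := fun i => if i.val < p - 3 then 1 else t
  obtain ⟨I, hI, he⟩ := h s
  have hh := two_mul_e2 s I
  rw [he, mul_zero] at hh
  set I1 := I.filter (fun i => i.val < p - 3) with hI1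
  set I2 := I.filter (fun i => ¬ i.val < p - 3) with hI2
  have hcard : I1.card + I2.card = I.card := card_filter_add_card_filter_not _
  have hc1 : I1.card ≤ p - 3 := by
    have : I1 ⊆ (univ : Finset (Fin (p + 1))).filter (fun i => i.val < p - 3) :=
      filter_subset_filter _ (subset_univ _)
    refine (card_le_card this).trans ?_
    rw [Fin.card_filter_val_lt]
    exact min_le_right _ _
  have hc2 : I2.card ≤ 4 := by
    have h4 : ((univ : Finset (Fin (p + 1))).filter (fun i => ¬ i.val < p - 3)).card ≤ 4 := by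
      have e := card_filter_add_card_filter_not (s := (univ : Finset (Fin (p + 1))))
        (fun i => i.val < p - 3)
      rw [Fin.card_filter_val_lt, card_univ, Fintype.card_fin] at e
      have : min (p + 1) (p - 3) = p - 3 := by omega
      rw [this] at e
      omega
    exact (card_le_card (filter_subset_filter _ (subset_univ _))).trans h4
  have hs1 : ∑ i ∈ I, s i = (I1.card : ZMod p) + t * (I2.card : ZMod p) := by
    rw [← sum_filter_add_sum_filter_not I (fun i => i.val < p - 3)]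
    congr 1
    · rw [sum_congr rfl (fun i hi => by simp only [s]; rw [if_pos (mem_filter.1 hi).2])]
      simp [hI1]
    · rw [sum_congr rfl (fun i hi => by simp only [s]; rw [if_neg (mem_filter.1 hi).2])]
      simp [hI2, mul_comm]
  have hs2 : ∑ i ∈ I, s i ^ 2 = (I1.card : ZMod p) + t ^ 2 * (I2.card : ZMod p) := by
    rw [← sum_filter_add_sum_filter_not I (fun i => i.val < p - 3)]
    congr 1
    · rw [sum_congr rfl (fun i hi => by simp only [s]; rw [if_pos (mem_filter.1 hi).2])]
      simp [hI1]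
    · rw [sum_congr rfl (fun i hi => by simp only [s]; rw [if_neg (mem_filter.1 hi).2])]
      simp [hI2, mul_comm]
  rw [hs1, hs2] at hh
  set a : ZMod p := (I1.card : ZMod p) with ha
  set b : ZMod p := (I2.card : ZMod p) with hb
  have key : (2 * a + 3 * b - 1) ^ 2 = 3 * b + 1 := by
    have e : (2 * a + 3 * b - 1) ^ 2 - (3 * b + 1) =
        4 * ((a + t * b) ^ 2 - (a + t ^ 2 * b)) + ((3 - 2 * t) * (4 * a * b + 3 * b ^ 2 + 2 * t * b ^ 2)
          - (3 - 2 * t) * (3 + 2 * t) * b) := by ring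
    rw [← hh, ht] at e
    have e' : (2 * a + 3 * b - 1) ^ 2 - (3 * b + 1) = 0 := by rw [e]; ring
    exact sub_eq_zero.1 e'
  have cast0 : ∀ m : ℕ, (m : ZMod p) = 0 → m < p → m = 0 := by
    intro m hm hlt
    rw [ZMod.natCast_eq_zero_iff] at hm
    exact Nat.eq_zero_of_dvd_of_lt hm hlt
  have hlist : I2.card = 0 ∨ I2.card = 1 ∨ I2.card = 2 ∨ I2.card = 3 ∨ I2.card = 4 := by omega
  rcases hlist with h0 | h0 | h0 | h0 | h0
  · have hb0 : b = 0 := by rw [hb, h0]; simp
    rw [hb0] at key
    have k2 : (2 * a) * (2 * (a - 1)) = 0 := by linear_combination key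
    rcases mul_eq_zero.1 k2 with k | k
    · have : a = 0 := (mul_eq_zero.1 k).resolve_left h20
      have := cast0 _ this (by omega)
      omega
    · have k' : a - 1 = 0 := (mul_eq_zero.1 k).resolve_left h20
      have h1 : 1 ≤ I1.card := by omega
      have : ((I1.card - 1 : ℕ) : ZMod p) = 0 := by
        rw [Nat.cast_sub h1, Nat.cast_one]; exact k'
      have := cast0 _ this (by omega)
      omega
  · have hb0 : b = 1 := by rw [hb, h0]; simp
    rw [hb0] at key
    have k2 : (2 * a) * (2 * (a + 2)) = 0 := by linear_combination key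
    rcases mul_eq_zero.1 k2 with k | k
    · have : a = 0 := (mul_eq_zero.1 k).resolve_left h20
      have := cast0 _ this (by omega)
      omega
    · have k' : a + 2 = 0 := (mul_eq_zero.1 k).resolve_left h20
      have : ((I1.card + 2 : ℕ) : ZMod p) = 0 := by
        push_cast; exact k'
      have := cast0 _ this (by omega)
      omega
  · have hb0 : b = 2 := by rw [hb, h0]; simp
    rw [hb0] at key
    exact n7 ⟨2 * a + 3 * 2 - 1, by linear_combination -key⟩
  · have hb0 : b = 3 := by rw [hb, h0]; simp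
    rw [hb0] at key
    exact n10 ⟨2 * a + 3 * 3 - 1, by linear_combination -key⟩
  · have hb0 : b = 4 := by rw [hb, h0]; simp
    rw [hb0] at key
    exact n13 ⟨2 * a + 3 * 4 - 1, by linear_combination -key⟩

lemma le_D {p : ℕ} (hp : p.Prime) (h13 : 13 < p)
    (n7 : ¬ IsSquare (7 : ZMod p)) (n10 : ¬ IsSquare (10 : ZMod p))
    (n13 : ¬ IsSquare (13 : ZMod p)) : p + 2 ≤ D p := by
  by_contra hlt
  have hmem : HasTwoZero p (D p) :=
    Nat.sInf_mem (s := {l | HasTwoZero p l}) ⟨p * p, nonempty hp (by omega)⟩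
  exact not_hasTwoZero hp h13 n7 n10 n13 (mono (by omega) hmem)

lemma d7 : ¬ IsSquare (((3 : ℕ)) : ZMod 7) := by decide
lemma d5 : ¬ IsSquare (((3 : ℕ)) : ZMod 5) := by decide
lemma d13 : ¬ IsSquare (((8 : ℕ)) : ZMod 13) := by decide

/-- `7`, `10`, `13` are non-squares modulo every prime `p ≡ 73 (mod 3640)`. -/
lemma nonsquares {p : ℕ} (hp : p.Prime) (h : p % 3640 = 73) :
    ¬ IsSquare (7 : ZMod p) ∧ ¬ IsSquare (10 : ZMod p) ∧ ¬ IsSquare (13 : ZMod p) := by
  have : Fact p.Prime := ⟨hp⟩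
  have : Fact (Nat.Prime 7) := ⟨by norm_num⟩
  have : Fact (Nat.Prime 5) := ⟨by norm_num⟩
  have : Fact (Nat.Prime 13) := ⟨by norm_num⟩
  have h4 : p % 4 = 1 := by omega
  have c7 : (p : ZMod 7) = ((3 : ℕ) : ZMod 7) := (ZMod.natCast_eq_natCast_iff' _ _ _).2 (by omega)
  have c5 : (p : ZMod 5) = ((3 : ℕ) : ZMod 5) := (ZMod.natCast_eq_natCast_iff' _ _ _).2 (by omega)
  have c13 : (p : ZMod 13) = ((8 : ℕ) : ZMod 13) := (ZMod.natCast_eq_natCast_iff' _ _ _).2 (by omega)
  have q7 := ZMod.exists_sq_eq_prime_iff_of_mod_four_eq_one (p := p) (q := 7) h4 (by norm_num)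
  have q5 := ZMod.exists_sq_eq_prime_iff_of_mod_four_eq_one (p := p) (q := 5) h4 (by norm_num)
  have q13 := ZMod.exists_sq_eq_prime_iff_of_mod_four_eq_one (p := p) (q := 13) h4 (by norm_num)
  have s2 := (ZMod.exists_sq_eq_two_iff (p := p) (by omega)).2 (Or.inl (by omega))
  refine ⟨?_, ?_, ?_⟩
  · intro hs
    have : IsSquare ((7 : ℕ) : ZMod p) := by exact_mod_cast hs
    rw [q7, c7] at this
    exact d7 this
  · intro hs
    obtain ⟨r, hr⟩ := hs
    obtain ⟨t, ht⟩ := s2
    have h20 : (2 : ZMod p) ≠ 0 := by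
      intro h0
      have : ((2 : ℕ) : ZMod p) = 0 := by exact_mod_cast h0
      rw [ZMod.natCast_eq_zero_iff] at this
      exact absurd (Nat.le_of_dvd (by norm_num) this) (by omega)
    have ht0 : t ≠ 0 := by
      rintro rfl
      exact h20 (by rw [ht]; ring)
    have : IsSquare ((5 : ℕ) : ZMod p) := by
      refine ⟨r / t, ?_⟩
      have e : (r / t) * (r / t) = (r * r) / (t * t) := by field_simp
      rw [e, ← hr, ← ht]
      have : (10 : ZMod p) = 5 * 2 := by norm_num
      rw [this, mul_div_assoc, div_self h20]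
      norm_num
    rw [q5, c5] at this
    exact d5 this
  · intro hs
    have : IsSquare ((13 : ℕ) : ZMod p) := by exact_mod_cast hs
    rw [q13, c13] at this
    exact d13 this

/-- **The conjecture is false.** For every prime `p ≡ 73 (mod 3640)` (in particular `p = 73`;
all these primes are `≡ 1 (mod 4)` and there are infinitely many of them) one has
`D_{e_2}^{(2)}(Z_p) ≥ p + 2`, so `D_{e_2}^{(2)}(Z_p) ≠ p + 1`. -/
theorem result :
    (∀ p : ℕ, p.Prime → 13 < p → ¬ IsSquare (7 : ZMod p) → ¬ IsSquare (10 : ZMod p) →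
      ¬ IsSquare (13 : ZMod p) → p + 2 ≤ D p) ∧
    (∀ p : ℕ, p.Prime → p % 3640 = 73 → p % 4 = 1 ∧ p + 2 ≤ D p) ∧
    75 ≤ D 73 ∧
    {p : ℕ | p.Prime ∧ p % 4 = 1 ∧ D p ≠ p + 1}.Infinite ∧
    ¬ ∀ p : ℕ, p.Prime → p % 4 = 1 → D p = p + 1 := by
  have h1 : ∀ p : ℕ, p.Prime → p % 3640 = 73 → p % 4 = 1 ∧ p + 2 ≤ D p := by
    intro p hp h
    obtain ⟨a, b, c⟩ := nonsquares hp h
    exact ⟨by omega, le_D hp (by omega) a b c⟩
  have p73 : Nat.Prime 73 := by norm_num
  have h73 : 75 ≤ D 73 := (h1 73 p73 (by norm_num)).2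
  refine ⟨fun p hp h a b c => le_D hp h a b c, h1, h73, ?_, ?_⟩
  · have hinf := Nat.infinite_setOfPred_prime_and_modEq (q := 3640) (a := 73) (by norm_num)
      (by norm_num)
    refine hinf.mono ?_
    rintro p ⟨hp, hm⟩
    have hm' : p % 3640 = 73 := hm
    obtain ⟨h4, hD⟩ := h1 p hp hm'
    exact ⟨hp, h4, by omega⟩
  · intro h
    have := h 73 p73 (by norm_num)
    omega

end Pool.Agent.Results.MP_891d15_co.TwoZeroSeventyThree
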